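import Pool.Agent.MP_ecfd11_lc.H3H.Close
import Pool.Agent.MP_ecfd11_lc.H65D.Main

/-!
The dichotomy for all transitive sets.
-/

set_option synthInstance.maxSize 4000

namespace Pool.Agent.MP_ecfd11_lc.H3H

open Pool.Agent.MP_ecfd11_lc.H20 Pool.Agent.MP_ecfd11_lc.H13X Pool.Agent.MP_ecfd11_lc.H3U
  Pool.Agent.MP_ecfd11_lc.H3E Pool.Agent.MP_ecfd11_lc.H65S Pool.Agent.MP_ecfd11_lc.H3G
  Pool.Agent.MP_ecfd11_lc.H65D

universe u

open ZFSet Cardinal Function Filter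

theorem mainH {d x t : ZFSet.{u}} {k : Cardinal.{u}} (hd : StronglyCompact d t) (hdt : d ∈ t)
    (hx : x ∈ t) (hp : 2 ^ card (d ∪ x) < card t) (ht : Regular Set.univ t) (hk : ℵ₀ ≤ k)
    (hw : ∀ e ∈ t, card e ^ k < card t)
    (hs : ∀ l, x ∈ l → l ⊆ succCard t → Regular Set.univ l → StronglyMeasurable Set.univ l) :
    ∃ th, HODSucc t th ∧ (SupHOD t th ∨ CofOmega Set.univ th ∧
    ∃ c, Club t c ∧ ∀ a ∈ c, (card a).IsStrongLimit →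
      ¬ Regular Set.univ (card a).ord.toZFSet →
      (∀ y, y ⊆ a → card y ≤ k → ∃ b ∈ a, ∀ z ∈ y, z ∈ b) → (∃ l < card a, Few l a (Lev a)) →
      ∀ Q, Q ∈ vonNeumann t.rank → Q.IsTransitive → a ∈ Q → Few k a Q →
        ∃ (M : Set ZFSet.{u}) (i : ZFSet.{u} → ZFSet.{u}), Internal M i ∧ (∀ y ∈ a, i y = y) ∧
          ∀ z ∈ Q, z ∈ M ∧ (z.IsOrdinal → z ∈ i a)) := by
  refine (mainD hd hdt hx hp ht hk hw hs).imp fun th h => h.imp_right fun h => h.imp_right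
    fun ⟨h0, c, c1, c2⟩ => ⟨h0, c, c1, fun a ha a1 a2 a3 a4 Q q1 q2 q3 q5 => ?_⟩
  have ao := ht.1.mem (c1.1 ha)
  obtain ⟨P, p1, p2, p3, p4⟩ := close (unc_of_regular ht) (fun z hz =>
    q2.mem_trans ((om_subset_iff ao).2 a1.aleph0_le hz) q3) q1 q5
  obtain ⟨N, j, -, -, n3, n4, n5⟩ := c2 a ha a1 a2 a3 a4
  obtain ⟨M, i, e, m1, m2, m3, m4, -⟩ := n5 P p1 ⟨a, p2 q3⟩ p3 p4
  have m6 := fix_of_elem (fun x hx => (m1.1 x hx).2) m2 q2 fun z hz => m4 z (p2 hz)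
  have im : ∀ y : ZFSet.{u}, y.IsOrdinal → i y ∈ M := fun y hy => m1.2.1.1 y (hod_ord hy)
  refine ⟨M, i, m1, fun y hy => ?_, fun z hz => ⟨(m6 z hz).1, fun zo => ?_⟩⟩
  · obtain ⟨h1, h2⟩ := m6 y (q2.mem_trans hy q3)
    exact (m2.2 (.eq 0 1) (cons (i y) fun _ => y) fun n => by
      cases n; exacts [im y (ao.mem hy), h1]).2
        (((m3 y (hod_ord (ao.mem hy))).trans (n3 y hy)).trans h2.symm)
  · obtain ⟨h1, h2⟩ := m6 z hz
    refine (m2.2 (.mem 0 1) (cons z fun _ => i a) fun n => by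
      cases n; exacts [h1, im a ao]).2 ?_
    change e z ∈ e (i a)
    rw [h2, m3 a (hod_ord ao), n4]
    exact (zo.rank_lt_iff_mem ht.1).1
      (mem_vonNeumann.1 ((isTransitive_vonNeumann _).mem_trans hz q1))

end Pool.Agent.MP_ecfd11_lc.H3H
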